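import Mathlib

/-!
# Mixed metric dimension of 2-connected graphs

Every 2-connected graph `G` which is not a cycle satisfies `mdim G ≤ 2 c(G)`.

Proof.  Fix a root `r`, write `L v` for the distance from `r`, and choose for every `v ≠ r` a parent
`par v` (a neighbour with `L (par v) + 1 = L v`).  The `c(G)` edges outside this breadth first
search tree have at most `2 c(G)` ends; together with `r` they form a mixed resolving set, so we
have to save one vertex.  This is clear if two non-tree edges share an end.  Otherwise take a vertex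
`w` of degree at least three.  Since `G - w` is connected, `r` can be chosen such that two
neighbours of `w` are not farther from `r` than `w`.  Then `w` is the end of a non-tree edge and has
a neighbour farther from `r`, and (for a suitable choice of the parents) the end `w` can be left
out.
-/

set_option autoImplicit false
set_option linter.unusedSectionVars false

namespace Pool.Agent.Results.MP_ca4ce9_co.TwoConnected

open SimpleGraph

/-- the distance from the vertex `w` to the edge `e = uv`, i.e. `min (d(w,u)) (d(w,v))` -/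
noncomputable def edgeDist {V : Type} (G : SimpleGraph V) (w : V) (e : Sym2 V) : ℕ :=
  Sym2.lift ⟨fun a b => min (G.dist w a) (G.dist w b), fun _ _ => min_comm _ _⟩ e

/-- the distance from the vertex `w` to an element (vertex or edge) of `G` -/
noncomputable def elemDist {V : Type} (G : SimpleGraph V) (w : V) : V ⊕ G.edgeSet → ℕ
  | Sum.inl x => G.dist w x
  | Sum.inr e => edgeDist G w e

/-- `S` is a mixed resolving set: every two distinct elements of `V(G) ∪ E(G)` have different
distances from some vertex of `S` -/
def MixedResolving {V : Type} (G : SimpleGraph V) (S : Finset V) : Prop :=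
  ∀ x y : V ⊕ G.edgeSet, x ≠ y → ∃ s ∈ S, elemDist G s x ≠ elemDist G s y

/-- the mixed metric dimension -/
noncomputable def mdim {V : Type} (G : SimpleGraph V) : ℕ :=
  sInf {k | ∃ S : Finset V, MixedResolving G S ∧ S.card = k}

section Tree

variable {V : Type} [Fintype V] [DecidableEq V] {G : SimpleGraph V}

/-- `y` lies on a shortest path from `r` to `s` -/
def Le (G : SimpleGraph V) (r y s : V) : Prop := G.dist r y + G.dist y s = G.dist r s

/-- `par` is the parent function of a breadth first search tree with root `r` -/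
def Valid (G : SimpleGraph V) (r : V) (par : V → V) : Prop :=
  par r = r ∧ ∀ v, v ≠ r → G.Adj (par v) v ∧ G.dist r (par v) + 1 = G.dist r v

/-- tree ancestors -/
def Anc (r : V) (par : V → V) (y s : V) : Prop :=
  Relation.ReflTransGen (fun a b => b ≠ r ∧ a = par b) y s

/-- non-tree edges -/
def NT (G : SimpleGraph V) (par : V → V) (a b : V) : Prop :=
  G.Adj a b ∧ par a ≠ b ∧ par b ≠ a

theorem NT.symm {par : V → V} {a b : V} (h : NT G par a b) : NT G par b a :=
  ⟨h.1.symm, h.2.2, h.2.1⟩

theorem adj_le (hc : G.Connected) {a b : V} (r : V) (h : G.Adj a b) :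
    G.dist r b ≤ G.dist r a + 1 := by
  have h1 := hc.dist_triangle (u := r) (v := a) (w := b)
  have h2 : G.dist a b = 1 := SimpleGraph.dist_eq_one_iff_adj.mpr h
  omega

theorem exists_prev (hc : G.Connected) {y s : V} (h : y ≠ s) :
    ∃ g, G.Adj g s ∧ G.dist y g + 1 = G.dist y s := by
  obtain ⟨p, hp⟩ := hc.exists_walk_length_eq_dist s y
  cases p with
  | nil => exact absurd rfl h
  | @cons _ g _ hadj q =>
    refine ⟨g, hadj.symm, ?_⟩
    have h1 : G.dist g y ≤ q.length := SimpleGraph.dist_le q
    have h2 := adj_le hc y hadj.symm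
    simp only [SimpleGraph.Walk.length_cons] at hp
    rw [SimpleGraph.dist_comm (u := g)] at h1
    rw [SimpleGraph.dist_comm (u := s)] at hp
    omega

theorem Le.prev (hc : G.Connected) {r y s : V} (h : Le G r y s) (hne : y ≠ s) :
    ∃ g, G.Adj g s ∧ Le G r y g ∧ G.dist r g + 1 = G.dist r s := by
  obtain ⟨g, hg, hd⟩ := exists_prev hc hne
  refine ⟨g, hg, ?_, ?_⟩ <;>
  · have h1 := adj_le hc r hg
    have h2 := hc.dist_triangle (u := r) (v := y) (w := g)
    simp only [Le] at *
    omega

theorem Le.refl (r y : V) : Le G r y y := by simp [Le]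

theorem Le.next (hc : G.Connected) {r y g s : V} (h : Le G r y g) (hg : G.Adj g s)
    (hl : G.dist r g + 1 = G.dist r s) : Le G r y s := by
  have h1 := adj_le hc y hg
  have h2 := hc.dist_triangle (u := r) (v := y) (w := s)
  simp only [Le] at *
  omega

variable {r : V} {par : V → V}

theorem Anc.level (hv : Valid G r par) {y s : V} (h : Anc r par y s) :
    y = s ∨ G.dist r y < G.dist r s := by
  induction h with
  | refl => exact Or.inl rfl
  | @tail b c _ step ih =>
    obtain ⟨h1, rfl⟩ := step
    have := (hv.2 c h1).2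
    rcases ih with rfl | ih <;> right <;> omega

theorem Anc.le (hc : G.Connected) (hv : Valid G r par) {y s : V} (h : Anc r par y s) :
    Le G r y s := by
  induction h with
  | refl => exact Le.refl _ _
  | @tail b c _ step ih =>
    obtain ⟨h1, rfl⟩ := step
    exact ih.next hc (hv.2 c h1).1 (hv.2 c h1).2

theorem Anc.comparable (hv : Valid G r par) {x y s : V} (hx : Anc r par x s)
    (hy : Anc r par y s) (hl : G.dist r x ≤ G.dist r y) : Anc r par x y := by
  revert hx
  induction hy with
  | refl => exact fun h => h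
  | @tail b c hyb step ih =>
    intro hx
    rcases Relation.ReflTransGen.cases_tail hx with h | ⟨d, hd, hstep⟩
    · subst h
      have h1 := Anc.level hv hyb
      have h2 := (hv.2 c step.1).2
      rw [← step.2] at h2
      rcases h1 with rfl | h1 <;> omega
    · have : d = b := by rw [hstep.2, step.2]
      subst this
      exact ih hd

/-- either a tree path, or a last non-tree edge on the way down -/
theorem Le.split (hc : G.Connected) {y s : V} (h : Le G r y s) :
    Anc r par y s ∨ ∃ a b, G.Adj a b ∧ G.dist r a + 1 = G.dist r b ∧ par b ≠ a ∧ Le G r y a ∧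
      Anc r par b s := by
  induction hn : G.dist r s generalizing s with
  | zero =>
    have h1 : r = s := hc.dist_eq_zero_iff.mp hn
    simp only [Le] at h
    have h2 : G.dist r y = 0 := by omega
    have h3 : r = y := hc.dist_eq_zero_iff.mp h2
    left
    rw [← h1, ← h3]
    exact Relation.ReflTransGen.refl
  | succ n ih =>
    by_cases hys : y = s
    · left
      rw [hys]
      exact Relation.ReflTransGen.refl
    · obtain ⟨g, hg, hyg, hl⟩ := h.prev hc hys
      have hsr : s ≠ r := by
        rintro rfl
        simp at hn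
      by_cases hp : par s = g
      · rcases ih hyg (by omega) with h1 | ⟨a, b, h1, h2, h3, h4, h5⟩
        · exact Or.inl (h1.tail ⟨hsr, hp.symm⟩)
        · exact Or.inr ⟨a, b, h1, h2, h3, h4, h5.tail ⟨hsr, hp.symm⟩⟩
      · exact Or.inr ⟨g, s, hg, hl, hp, hyg, Relation.ReflTransGen.refl⟩

/-- sufficient conditions for a mixed resolving set -/
structure Good (G : SimpleGraph V) (r : V) (par : V → V) (S : Finset V) : Prop where
  root : r ∈ S
  below : ∀ v, ∃ s ∈ S, Le G r v s
  vert : ∀ a b, G.Adj a b → G.dist r a + 1 = G.dist r b → par b ≠ a → a ∈ S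
  hor : ∀ a b, G.Adj a b → G.dist r a = G.dist r b → ∃ s ∈ S, G.dist s a < G.dist s b
  hor2 : ∀ a b, G.Adj a b → G.dist r a = G.dist r b → a ∈ S ∨ b ∈ S
  hor3 : ∀ a b b', G.Adj a b → G.Adj a b' → G.dist r a = G.dist r b → G.dist r a = G.dist r b' →
    b ≠ b' → b ∈ S ∨ b' ∈ S

theorem Good.separate (hc : G.Connected) (hv : Valid G r par) {S : Finset V}
    (hS : Good G r par S) {x y : V} (hxy : x ≠ y) (hl : G.dist r x = G.dist r y) :
    ∃ s ∈ S, (Le G r x s ∧ ¬ Le G r y s) ∨ (Le G r y s ∧ ¬ Le G r x s) := by
  classical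
  by_contra hcon
  push Not at hcon
  obtain ⟨s0, hs0, hxs0⟩ := hS.below x
  obtain ⟨s, hs, hmin⟩ := Finset.exists_min_image (S.filter (fun s => Le G r x s))
    (fun s => G.dist r s) ⟨s0, by simp [hs0, hxs0]⟩
  simp only [Finset.mem_filter] at hs hmin
  have hys : Le G r y s := (hcon s hs.1).1 hs.2
  rcases Le.split (par := par) hc hs.2 with h1 | ⟨a, b, h1, h2, h3, h4, h5⟩
  · rcases Le.split (par := par) hc hys with h1' | ⟨a, b, h1', h2, h3, h4, h5⟩
    · have := Anc.comparable hv h1 h1' hl.le
      rcases Anc.level hv this with h | h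
      · exact hxy h
      · omega
    · have ha := hS.vert a b h1' h2 h3
      have := hmin a ⟨ha, (hcon a ha).2 h4⟩
      rcases Anc.level hv h5 with rfl | h <;> omega
  · have ha := hS.vert a b h1 h2 h3
    have := hmin a ⟨ha, h4⟩
    rcases Anc.level hv h5 with rfl | h <;> omega

theorem le_dist (hc : G.Connected) (r x s : V) : G.dist r s ≤ G.dist r x + G.dist s x := by
  have := hc.dist_triangle (u := r) (v := x) (w := s)
  rwa [SimpleGraph.dist_comm (u := x)] at this

theorem Le.eq {x s : V} (h : Le G r x s) : G.dist r s = G.dist r x + G.dist s x := by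
  rw [Le, SimpleGraph.dist_comm (u := x)] at h
  exact h.symm

theorem not_Le {x s : V} (h : ¬ Le G r x s) (hc : G.Connected) :
    G.dist r s < G.dist r x + G.dist s x := by
  rw [Le, SimpleGraph.dist_comm (u := x)] at h
  have := le_dist hc r x s
  omega

/-- oriented edges: the first end is not lower -/
theorem orient (hc : G.Connected) (e : G.edgeSet) :
    ∃ a b, G.Adj a b ∧ (e : Sym2 V) = s(a, b) ∧
      (G.dist r a + 1 = G.dist r b ∨ G.dist r a = G.dist r b) := by
  obtain ⟨e, he⟩ := e
  induction e with | _ a b =>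
  rw [SimpleGraph.mem_edgeSet] at he
  have h1 := adj_le hc r he
  have h2 := adj_le hc r he.symm
  rcases Nat.lt_trichotomy (G.dist r a) (G.dist r b) with h | h | h
  · exact ⟨a, b, he, rfl, Or.inl (by omega)⟩
  · exact ⟨a, b, he, rfl, Or.inr h⟩
  · exact ⟨b, a, he.symm, Sym2.eq_swap, Or.inl (by omega)⟩

theorem elemDist_edge (e : G.edgeSet) {a b : V} (h : (e : Sym2 V) = s(a, b)) (s : V) :
    elemDist G s (Sum.inr e) = min (G.dist s a) (G.dist s b) := by
  simp only [elemDist, h, edgeDist, Sym2.lift_mk]

theorem dist_pos (hc : G.Connected) {a b : V} (h : a ≠ b) : 0 < G.dist a b :=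
  hc.pos_dist_of_ne h

theorem Good.vertexEdge (hc : G.Connected) {S : Finset V}
    (hS : Good G r par S) (x : V) (e : G.edgeSet) :
    ∃ s ∈ S, elemDist G s (Sum.inl x) ≠ elemDist G s (Sum.inr e) := by
  obtain ⟨a, b, hab, he, hlev⟩ := orient (r := r) hc e
  simp only [elemDist_edge e he]
  show ∃ s ∈ S, G.dist s x ≠ _
  by_cases hxa : G.dist r x = G.dist r a
  · rcases hlev with hlev | hlev
    · obtain ⟨s, hs, hbs⟩ := hS.below b
      refine ⟨s, hs, ?_⟩
      have h1 := hbs.eq
      have h2 := le_dist hc r x s
      omega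
    · by_cases h1 : x = a
      · subst h1
        obtain ⟨s, hs, h2⟩ := hS.hor b x hab.symm hlev.symm
        exact ⟨s, hs, by omega⟩
      · by_cases h2 : x = b
        · subst h2
          obtain ⟨s, hs, h2⟩ := hS.hor a x hab hlev
          exact ⟨s, hs, by omega⟩
        · rcases hS.hor2 a b hab hlev with h | h
          · refine ⟨a, h, ?_⟩
            have := dist_pos hc (Ne.symm h1)
            simp only [SimpleGraph.dist_self]
            omega
          · refine ⟨b, h, ?_⟩
            have := dist_pos hc (Ne.symm h2)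
            simp only [SimpleGraph.dist_self]
            omega
  · refine ⟨r, hS.root, ?_⟩
    omega

theorem Good.edgeEdge (hc : G.Connected) (hv : Valid G r par) {S : Finset V}
    (hS : Good G r par S) (e f : G.edgeSet) (hef : e ≠ f) :
    ∃ s ∈ S, elemDist G s (Sum.inr e) ≠ elemDist G s (Sum.inr f) := by
  obtain ⟨a, b, hab, he, hlev⟩ := orient (r := r) hc e
  obtain ⟨a', b', hab', hf, hlev'⟩ := orient (r := r) hc f
  simp only [elemDist_edge e he, elemDist_edge f hf]
  have hne : s(a, b) ≠ s(a', b') := by
    intro h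
    exact hef (Subtype.ext (by rw [he, hf, h]))
  by_cases hup : G.dist r a = G.dist r a'
  swap
  · refine ⟨r, hS.root, ?_⟩
    omega
  rcases hlev with hlev | hlev
  · rcases hlev' with hlev' | hlev'
    · by_cases hbb : b = b'
      · subst hbb
        have haa : a ≠ a' := by
          rintro rfl
          exact hne rfl
        by_cases hp : par b = a
        · have h1 := hS.vert a' b hab' hlev' (by rw [hp]; exact haa)
          refine ⟨a', h1, ?_⟩
          have h2 := dist_pos hc haa.symm
          have h3 := dist_pos hc hab'.ne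
          simp only [SimpleGraph.dist_self]
          omega
        · have h1 := hS.vert a b hab hlev hp
          refine ⟨a, h1, ?_⟩
          have h2 := dist_pos hc haa
          have h3 := dist_pos hc hab.ne
          simp only [SimpleGraph.dist_self]
          omega
      · obtain ⟨s, hs, h⟩ := hS.separate hc hv hbb (by omega)
        refine ⟨s, hs, ?_⟩
        have h1 := le_dist hc r a s
        have h2 := le_dist hc r a' s
        rcases h with ⟨h3, h4⟩ | ⟨h3, h4⟩
        · have h5 := h3.eq
          have h6 := not_Le h4 hc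
          omega
        · have h5 := h3.eq
          have h6 := not_Le h4 hc
          omega
    · obtain ⟨s, hs, hbs⟩ := hS.below b
      refine ⟨s, hs, ?_⟩
      have h1 := hbs.eq
      have h2 := le_dist hc r a' s
      have h3 := le_dist hc r b' s
      omega
  · rcases hlev' with hlev' | hlev'
    · obtain ⟨s, hs, hbs⟩ := hS.below b'
      refine ⟨s, hs, ?_⟩
      have h1 := hbs.eq
      have h2 := le_dist hc r a s
      have h3 := le_dist hc r b s
      omega
    · -- both horizontal
      have key : ∀ x y x' y' : V, G.Adj x y → G.Adj x' y' → G.dist r x = G.dist r y →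
          G.dist r x' = G.dist r y' → s(x, y) ≠ s(x', y') → x ∈ S →
          ∃ s ∈ S, min (G.dist s x) (G.dist s y) ≠ min (G.dist s x') (G.dist s y') := by
        intro x y x' y' hxy hxy' hl hl' hne hx
        have aux : ∀ z, G.Adj x z → G.dist r x = G.dist r z → z ≠ y →
            ∃ s ∈ S, min (G.dist s x) (G.dist s y) ≠ min (G.dist s x) (G.dist s z) := by
          intro z hz hlz hzy
          rcases hS.hor3 x y z hxy hz hl hlz hzy.symm with h | h
          · refine ⟨y, h, ?_⟩
            have h2 := dist_pos hc hzy.symm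
            have h3 := dist_pos hc hxy.symm.ne
            simp only [SimpleGraph.dist_self]
            omega
          · refine ⟨z, h, ?_⟩
            have h2 := dist_pos hc hzy
            have h3 := dist_pos hc hz.symm.ne
            simp only [SimpleGraph.dist_self]
            omega
        by_cases h1 : x = x'
        · subst h1
          exact aux y' hxy' hl' (fun h => hne (by rw [h]))
        · by_cases h2 : x = y'
          · subst h2
            obtain ⟨s, hs, h⟩ := aux x' hxy'.symm hl'.symm
              (fun h => hne (by rw [h]; exact Sym2.eq_swap))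
            exact ⟨s, hs, by rw [min_comm (G.dist s x')]; exact h⟩
          · refine ⟨x, hx, ?_⟩
            have h3 := dist_pos hc h1
            have h4 := dist_pos hc h2
            simp only [SimpleGraph.dist_self]
            omega
      rcases hS.hor2 a b hab hlev with h | h
      · exact key a b a' b' hab hab' hlev hlev' hne h
      · obtain ⟨s, hs, h⟩ := key b a a' b' hab.symm hab' hlev.symm hlev'
          (fun h => hne (by rw [← h]; exact Sym2.eq_swap)) h
        exact ⟨s, hs, by rw [min_comm (G.dist s a)]; exact h⟩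

theorem Good.resolving (hc : G.Connected) (hv : Valid G r par) {S : Finset V}
    (hS : Good G r par S) : MixedResolving G S := by
  rintro (x | e) (y | f) hxy
  · have hne : x ≠ y := fun h => hxy (by rw [h])
    by_cases hl : G.dist r x = G.dist r y
    · obtain ⟨s, hs, h⟩ := hS.separate hc hv hne hl
      refine ⟨s, hs, ?_⟩
      show G.dist s x ≠ G.dist s y
      rcases h with ⟨h3, h4⟩ | ⟨h3, h4⟩
      · have h5 := h3.eq
        have h6 := not_Le h4 hc
        omega
      · have h5 := h3.eq
        have h6 := not_Le h4 hc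
        omega
    · exact ⟨r, hS.root, hl⟩
  · exact hS.vertexEdge hc x f
  · obtain ⟨s, hs, h⟩ := hS.vertexEdge hc y e
    exact ⟨s, hs, h.symm⟩
  · exact hS.edgeEdge hc hv e f (fun h => hxy (by rw [h]))

/-! ### Counting -/

section Count

variable [DecidableRel G.Adj]

/-- the edges of the tree -/
def treeEdges (r : V) (par : V → V) : Finset (Sym2 V) :=
  (Finset.univ.erase r).image (fun v => s(par v, v))

/-- the edges outside the tree -/
def M (G : SimpleGraph V) [DecidableRel G.Adj] (r : V) (par : V → V) : Finset (Sym2 V) :=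
  G.edgeFinset \ treeEdges r par

/-- the ends of the edges outside the tree -/
def VM (G : SimpleGraph V) [DecidableRel G.Adj] (r : V) (par : V → V) : Finset V :=
  (M G r par).biUnion (fun e => e.toFinset)

theorem card_M (hv : Valid G r par) :
    (M G r par).card + Fintype.card V = G.edgeFinset.card + 1 := by
  have h1 : treeEdges r par ⊆ G.edgeFinset := by
    intro e he
    simp only [treeEdges, Finset.mem_image, Finset.mem_erase, Finset.mem_univ, and_true] at he
    obtain ⟨v, hvr, rfl⟩ := he
    rw [SimpleGraph.mem_edgeFinset, SimpleGraph.mem_edgeSet]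
    exact (hv.2 v hvr).1
  have h2 : (treeEdges r par).card = Fintype.card V - 1 := by
    rw [treeEdges, Finset.card_image_of_injOn, Finset.card_erase_of_mem (Finset.mem_univ _),
      Finset.card_univ]
    intro v hv1 u hu1 h
    simp only [Finset.coe_erase, Finset.coe_univ, Set.mem_sdiff, Set.mem_univ, true_and,
      Set.mem_singleton_iff] at hv1 hu1
    simp only [Sym2.eq_iff] at h
    rcases h with h | h
    · exact h.2
    · have h3 := (hv.2 v hv1).2
      have h4 := (hv.2 u hu1).2
      rw [h.1] at h3
      rw [← h.2] at h4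
      omega
  have h3 : 0 < Fintype.card V := Fintype.card_pos_iff.mpr ⟨r⟩
  rw [M, Finset.card_sdiff_of_subset h1, h2]
  have := Finset.card_le_card h1
  omega

theorem mem_M (hv : Valid G r par) {a b : V} : s(a, b) ∈ M G r par ↔ NT G par a b := by
  simp only [M, Finset.mem_sdiff, SimpleGraph.mem_edgeFinset, SimpleGraph.mem_edgeSet, treeEdges,
    Finset.mem_image, Finset.mem_erase, Finset.mem_univ, and_true, not_exists, not_and, NT]
  refine and_congr_right fun hab => ?_
  constructor
  · intro h
    constructor
    · intro h1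
      by_cases har : a = r
      · rw [har, hv.1] at h1
        rw [har, h1] at hab
        exact G.loopless.irrefl _ hab
      · exact h a har (by rw [h1]; exact Sym2.eq_swap)
    · intro h1
      by_cases hbr : b = r
      · rw [hbr, hv.1] at h1
        rw [hbr, h1] at hab
        exact G.loopless.irrefl _ hab
      · exact h b hbr (by rw [h1])
  · rintro ⟨h1, h2⟩ x hx h3
    rcases Sym2.eq_iff.mp h3 with ⟨h4, h5⟩ | ⟨h4, h5⟩
    · subst h5
      exact h2 h4
    · subst h5
      exact h1 h4

theorem mem_VM (hv : Valid G r par) {a : V} : a ∈ VM G r par ↔ ∃ b, NT G par a b := by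
  simp only [VM, Finset.mem_biUnion, Sym2.mem_toFinset]
  constructor
  · rintro ⟨e, he, ha⟩
    obtain ⟨b, rfl⟩ := Sym2.mem_iff_exists.mp ha
    exact ⟨b, (mem_M hv).1 he⟩
  · rintro ⟨b, hb⟩
    exact ⟨s(a, b), (mem_M hv).2 hb, Sym2.mem_mk_left _ _⟩

theorem card_toFinset_le (e : Sym2 V) : e.toFinset.card ≤ 2 := by
  induction e with | _ a b =>
  rw [Sym2.toFinset_mk_eq]
  exact Finset.card_le_two

theorem card_VM : (VM G r par).card ≤ 2 * (M G r par).card := by
  rw [VM, mul_comm]
  exact Finset.card_biUnion_le_card_mul _ _ _ (fun e _ => card_toFinset_le e)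

theorem card_VM_lt (hv : Valid G r par) {v a b : V} (h1 : NT G par v a) (h2 : NT G par v b)
    (hab : a ≠ b) : (VM G r par).card + 1 ≤ 2 * (M G r par).card := by
  have hf : s(v, b) ∈ M G r par := (mem_M hv).2 h2
  have he : s(v, a) ∈ (M G r par).erase s(v, b) := by
    rw [Finset.mem_erase]
    refine ⟨?_, (mem_M hv).2 h1⟩
    intro h
    rcases Sym2.eq_iff.mp h with h3 | h3
    · exact hab h3.2
    · exact h1.1.ne h3.2.symm
  have hsub : VM G r par ⊆ ((M G r par).erase s(v, b)).biUnion (fun e => e.toFinset) ∪ {b} := by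
    intro x hx
    simp only [VM, Finset.mem_biUnion, Sym2.mem_toFinset] at hx
    obtain ⟨e, he', hxe⟩ := hx
    by_cases hef : e = s(v, b)
    · subst hef
      rcases Sym2.mem_iff.mp hxe with rfl | rfl
      · refine Finset.mem_union_left _ (Finset.mem_biUnion.mpr ⟨_, he, ?_⟩)
        rw [Sym2.mem_toFinset]
        exact Sym2.mem_mk_left _ _
      · exact Finset.mem_union_right _ (by simp)
    · refine Finset.mem_union_left _ (Finset.mem_biUnion.mpr ⟨e, ?_, ?_⟩)
      · exact Finset.mem_erase.mpr ⟨hef, he'⟩
      · rwa [Sym2.mem_toFinset]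
  have h3 := Finset.card_le_card hsub
  have h4 := Finset.card_union_le (((M G r par).erase s(v, b)).biUnion (fun e => e.toFinset)) {b}
  have h5 := Finset.card_biUnion_le_card_mul ((M G r par).erase s(v, b))
    (fun e : Sym2 V => e.toFinset) 2 (fun e _ => card_toFinset_le e)
  rw [Finset.card_erase_of_mem hf] at h5
  have h6 : 0 < (M G r par).card := Finset.card_pos.mpr ⟨_, hf⟩
  simp only [Finset.card_singleton] at h4
  omega

/-- every vertex is above an end of a non-tree edge without lower neighbours -/
theorem leaf (hc : G.Connected) (hv : Valid G r par)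
    (hdeg : ∀ v, ∃ a b, a ≠ b ∧ G.Adj v a ∧ G.Adj v b) (v : V) :
    ∃ s ∈ VM G r par, Le G r v s ∧ ∀ q, G.Adj s q → G.dist r s + 1 ≠ G.dist r q := by
  classical
  obtain ⟨s, hs, hmax⟩ := Finset.exists_max_image (Finset.univ.filter (fun s => Le G r v s))
    (fun s => G.dist r s) ⟨v, by simp [Le.refl]⟩
  simp only [Finset.mem_filter, Finset.mem_univ, true_and] at hs hmax
  have hlow : ∀ q, G.Adj s q → G.dist r s + 1 ≠ G.dist r q := by
    intro q hq hl
    have := hmax q (hs.next hc hq hl)
    omega
  refine ⟨s, ?_, hs, hlow⟩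
  obtain ⟨a, b, hab, ha, hb⟩ := hdeg s
  have hsr : s ≠ r := by
    rintro rfl
    exact hlow a ha (by rw [SimpleGraph.dist_self, SimpleGraph.dist_eq_one_iff_adj.mpr ha])
  rw [mem_VM hv]
  have key : ∀ q, G.Adj s q → par s ≠ q → NT G par s q := by
    intro q hq hp
    refine ⟨hq, hp, ?_⟩
    intro h
    by_cases hqr : q = r
    · rw [hqr, hv.1] at h
      exact hsr h.symm
    · have := (hv.2 q hqr).2
      rw [h] at this
      exact hlow q hq this
  by_cases hp : par s = a
  · exact ⟨b, key b hb (by rw [hp]; exact hab)⟩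
  · exact ⟨a, key a ha hp⟩

theorem vert_NT (hv : Valid G r par) {a b : V} (hab : G.Adj a b)
    (hl : G.dist r a + 1 = G.dist r b) (hp : par b ≠ a) : NT G par a b := by
  refine ⟨hab, ?_, hp⟩
  intro h
  by_cases har : a = r
  · rw [har, hv.1] at h
    rw [har, h] at hab
    exact G.loopless.irrefl _ hab
  · have := (hv.2 a har).2
    rw [h] at this
    omega

theorem hor_NT (hv : Valid G r par) {a b : V} (hab : G.Adj a b)
    (hl : G.dist r a = G.dist r b) : NT G par a b := by
  have key : ∀ x y, G.Adj x y → G.dist r x = G.dist r y → par x ≠ y := by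
    intro x y hxy hl h
    by_cases har : x = r
    · rw [har, hv.1] at h
      rw [har, h] at hxy
      exact G.loopless.irrefl _ hxy
    · have := (hv.2 x har).2
      rw [h] at this
      omega
  exact ⟨hab, key a b hab hl, key b a hab.symm hl.symm⟩

theorem optionA (hc : G.Connected) (hv : Valid G r par)
    (hdeg : ∀ v, ∃ a b, a ≠ b ∧ G.Adj v a ∧ G.Adj v b)
    {v a b : V} (h1 : NT G par v a) (h2 : NT G par v b) (hab : a ≠ b) :
    ∃ S : Finset V, MixedResolving G S ∧ S.card ≤ 2 * (M G r par).card := by
  refine ⟨insert r (VM G r par), Good.resolving (r := r) (par := par) hc hv ?_, ?_⟩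
  · have mem : ∀ x y, NT G par x y → x ∈ insert r (VM G r par) := fun x y h =>
      Finset.mem_insert_of_mem ((mem_VM hv).2 ⟨y, h⟩)
    refine ⟨Finset.mem_insert_self _ _, ?_, ?_, ?_, ?_, ?_⟩
    · intro x
      obtain ⟨s, hs, hxs, -⟩ := leaf hc hv hdeg x
      exact ⟨s, Finset.mem_insert_of_mem hs, hxs⟩
    · intro x y hxy hl hp
      exact mem x y (vert_NT hv hxy hl hp)
    · intro x y hxy hl
      refine ⟨x, mem x y (hor_NT hv hxy hl), ?_⟩
      rw [SimpleGraph.dist_self]
      exact dist_pos hc hxy.ne
    · intro x y hxy hl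
      exact Or.inl (mem x y (hor_NT hv hxy hl))
    · intro x y z hxy hxz hl _ _
      exact Or.inl (mem y x (hor_NT hv hxy hl).symm)
  · have h3 := card_VM_lt hv h1 h2 hab
    have h4 := Finset.card_insert_le r (VM G r par)
    omega

theorem optionBC (hc : G.Connected) (hv : Valid G r par)
    (hdeg : ∀ v, ∃ a b, a ≠ b ∧ G.Adj v a ∧ G.Adj v b)
    (hmat : ∀ v a b, NT G par v a → NT G par v b → a = b)
    {u : V} (huM : u ∈ VM G r par) (hlow : ∃ y, G.Adj u y ∧ G.dist r u + 1 = G.dist r y)
    (hcc : ∀ b, G.Adj u b → G.dist r u + 1 = G.dist r b → par b = u)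
    (hd : ∀ b, G.Adj u b → G.dist r u = G.dist r b →
      ∃ s ∈ insert r ((VM G r par).erase u), G.dist s u < G.dist s b) :
    ∃ S : Finset V, MixedResolving G S ∧ S.card ≤ 2 * (M G r par).card := by
  refine ⟨insert r ((VM G r par).erase u), Good.resolving (r := r) (par := par) hc hv ?_, ?_⟩
  · have mem : ∀ x y, x ≠ u → NT G par x y → x ∈ insert r ((VM G r par).erase u) :=
      fun x y hx h => Finset.mem_insert_of_mem (Finset.mem_erase.mpr ⟨hx, (mem_VM hv).2 ⟨y, h⟩⟩)
    refine ⟨Finset.mem_insert_self _ _, ?_, ?_, ?_, ?_, ?_⟩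
    · intro x
      obtain ⟨s, hs, hxs, hno⟩ := leaf hc hv hdeg x
      refine ⟨s, Finset.mem_insert_of_mem (Finset.mem_erase.mpr ⟨?_, hs⟩), hxs⟩
      rintro rfl
      obtain ⟨y, hy, hl⟩ := hlow
      exact hno y hy hl
    · intro x y hxy hl hp
      refine mem x y ?_ (vert_NT hv hxy hl hp)
      rintro rfl
      exact hp (hcc y hxy hl)
    · intro x y hxy hl
      by_cases hxu : x = u
      · subst hxu
        exact hd y hxy hl
      · refine ⟨x, mem x y hxu (hor_NT hv hxy hl), ?_⟩
        rw [SimpleGraph.dist_self]
        exact dist_pos hc hxy.ne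
    · intro x y hxy hl
      by_cases hxu : x = u
      · subst hxu
        exact Or.inr (mem y x hxy.ne.symm (hor_NT hv hxy hl).symm)
      · exact Or.inl (mem x y hxu (hor_NT hv hxy hl))
    · intro x y z hxy hxz hl hl' hyz
      exact absurd (hmat x y z (hor_NT hv hxy hl) (hor_NT hv hxz hl')) hyz
  · have h3 := card_VM (G := G) (r := r) (par := par)
    have h4 := Finset.card_insert_le r ((VM G r par).erase u)
    have h5 := Finset.card_erase_of_mem huM
    have h6 : 0 < (VM G r par).card := Finset.card_pos.mpr ⟨u, huM⟩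
    omega

theorem exists_valid (hc : G.Connected) (r : V) : ∃ par : V → V, Valid G r par := by
  classical
  have : ∀ v, ∃ g, v ≠ r → G.Adj g v ∧ G.dist r g + 1 = G.dist r v := by
    intro v
    by_cases h : v = r
    · exact ⟨v, fun h' => absurd h h'⟩
    · obtain ⟨g, h1, h2⟩ := exists_prev hc (Ne.symm h)
      exact ⟨g, fun _ => ⟨h1, h2⟩⟩
  choose g hg using this
  refine ⟨fun v => if v = r then r else g v, by simp, ?_⟩
  intro v hvr
  simp only [hvr, if_false]
  exact hg v hvr

/-- the main step: two neighbours of `w` are not farther from `r` than `w` -/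
theorem main (hc : G.Connected) (hdeg : ∀ v, ∃ a b, a ≠ b ∧ G.Adj v a ∧ G.Adj v b)
    {r w q1 q2 q3 : V} (hwr : w ≠ r) (h1 : G.Adj w q1) (h2 : G.Adj w q2) (h3 : G.Adj w q3)
    (h12 : q1 ≠ q2) (h13 : q1 ≠ q3) (h23 : q2 ≠ q3)
    (hl1 : G.dist r q1 ≤ G.dist r w) (hl2 : G.dist r q2 ≤ G.dist r w) :
    ∃ S : Finset V, MixedResolving G S ∧
      S.card + 2 * Fintype.card V ≤ 2 * G.edgeFinset.card + 2 := by
  classical
  by_contra hno
  have hno' : ∀ par, Valid G r par →
      ¬ ∃ S : Finset V, MixedResolving G S ∧ S.card ≤ 2 * (M G r par).card := by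
    rintro par hv ⟨S, hS, hcard⟩
    have := card_M hv
    exact hno ⟨S, hS, by omega⟩
  have hmat : ∀ par, Valid G r par → ∀ v a b, NT G par v a → NT G par v b → a = b := by
    intro par hv v a b ha hb
    by_contra hab
    exact hno' par hv (optionA hc hv hdeg ha hb hab)
  -- neighbours of `w` which are not lower and not the parent
  have hNT : ∀ par, Valid G r par → ∀ q, G.Adj w q → G.dist r q ≤ G.dist r w → par w ≠ q →
      NT G par w q := by
    intro par hv q hq hl hp
    refine ⟨hq, hp, ?_⟩
    intro h
    by_cases hqr : q = r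
    · rw [hqr, hv.1] at h
      exact hwr h.symm
    · have := (hv.2 q hqr).2
      rw [h] at this
      omega
  -- `w` has an end in a non-tree edge
  have hwM : ∀ par, Valid G r par → ∃ q, NT G par w q ∧ (q = q1 ∨ q = q2) := by
    intro par hv
    by_cases hp : par w = q1
    · exact ⟨q2, hNT par hv q2 h2 hl2 (by rw [hp]; exact h12), Or.inr rfl⟩
    · exact ⟨q1, hNT par hv q1 h1 hl1 hp, Or.inl rfl⟩
  -- `w` has a lower neighbour, namely `q3`
  have hlow : G.dist r w + 1 = G.dist r q3 := by
    by_contra hcon
    have hl3 : G.dist r q3 ≤ G.dist r w := by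
      have := adj_le hc r h3
      omega
    obtain ⟨par, hv⟩ := exists_valid hc r
    by_cases hp1 : par w = q1
    · exact h23 (hmat par hv w q2 q3 (hNT par hv q2 h2 hl2 (by rw [hp1]; exact h12))
        (hNT par hv q3 h3 hl3 (by rw [hp1]; exact h13)))
    · by_cases hp2 : par w = q2
      · exact h13 (hmat par hv w q1 q3 (hNT par hv q1 h1 hl1 hp1)
          (hNT par hv q3 h3 hl3 (by rw [hp2]; exact h23)))
      · exact h12 (hmat par hv w q1 q2 (hNT par hv q1 h1 hl1 hp1) (hNT par hv q2 h2 hl2 hp2))
  have hcc : ∀ par, Valid G r par → ∀ b, G.Adj w b → G.dist r w + 1 = G.dist r b →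
      par b = w := by
    intro par hv b hb hl
    by_contra hp
    obtain ⟨q, hq, hq12⟩ := hwM par hv
    have := hmat par hv w b q (vert_NT hv hb hl hp) hq
    rcases hq12 with rfl | rfl <;> subst this <;> omega
  by_cases hw' : ∃ w', G.Adj w w' ∧ G.dist r w = G.dist r w'
  · obtain ⟨w', hww', hlw'⟩ := hw'
    have hhor : ∀ par, Valid G r par → ∀ b, G.Adj w b → G.dist r w = G.dist r b → b = w' := by
      intro par hv b hb hl
      exact hmat par hv w b w' (hor_NT hv hb hl) (hor_NT hv hww' hlw')
    have hex : ∃ k, ∃ par, Valid G r par ∧ ∃ s ∈ insert r ((VM G r par).erase w),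
        Le G r w s ∧ G.dist r s = k := by
      obtain ⟨par, hv⟩ := exists_valid hc r
      obtain ⟨s, hs, hws, hno2⟩ := leaf hc hv hdeg w
      refine ⟨G.dist r s, par, hv, s, Finset.mem_insert_of_mem (Finset.mem_erase.mpr ⟨?_, hs⟩),
        hws, rfl⟩
      rintro rfl
      exact hno2 q3 h3 hlow
    obtain ⟨par, hv, s, hs, hws, hk⟩ := Nat.find_spec hex
    have hmin : ∀ par', Valid G r par' → ∀ s' ∈ insert r ((VM G r par').erase w),
        Le G r w s' → G.dist r s ≤ G.dist r s' := by
      intro par' hv' s' hs' hle
      rw [hk]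
      exact Nat.find_min' hex ⟨par', hv', s', hs', hle, rfl⟩
    apply hno' par hv
    refine optionBC hc hv hdeg (hmat par hv) (u := w) ?_ ⟨q3, h3, hlow⟩ (hcc par hv) ?_
    · obtain ⟨q, hq, -⟩ := hwM par hv
      exact (mem_VM hv).2 ⟨q, hq⟩
    · intro b hb hl
      have hbw := hhor par hv b hb hl
      subst hbw
      by_contra hstar
      push Not at hstar
      have hbs : Le G r b s := by
        have h4 := hstar s hs
        have h5 := hws.eq
        have h6 := le_dist hc r b s
        rw [Le, SimpleGraph.dist_comm (u := b)]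
        omega
      have hAw : Anc r par w s := by
        rcases Le.split (par := par) hc hws with h | ⟨x, y, hx1, hx2, hx3, hx4, hx5⟩
        · exact h
        · exfalso
          have hxw : x ≠ w := by
            rintro rfl
            exact hx3 (hcc par hv y hx1 hx2)
          have h4 := hmin par hv x (Finset.mem_insert_of_mem (Finset.mem_erase.mpr
            ⟨hxw, (mem_VM hv).2 ⟨y, vert_NT hv hx1 hx2 hx3⟩⟩)) hx4
          rcases Anc.level hv hx5 with rfl | h <;> omega
      rcases Le.split (par := par) hc hbs with h | ⟨x, y, hx1, hx2, hx3, hx4, hx5⟩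
      · have h4 := Anc.comparable hv hAw h hl.le
        rcases Anc.level hv h4 with h | h
        · exact hb.ne h
        · omega
      · have hxl : G.dist r w ≤ G.dist r x := by
          have := hx4.eq
          omega
        have hwy : Anc r par w y := Anc.comparable hv hAw hx5 (by omega)
        have hyr : y ≠ r := by
          rintro rfl
          simp at hx2
        have hne : w ≠ y := by
          rintro rfl
          omega
        have hwp : Anc r par w (par y) := by
          rcases Relation.ReflTransGen.cases_tail hwy with h | ⟨d, hd, hstep⟩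
          · exact absurd h.symm hne
          · rw [← hstep.2]
            exact hd
        -- change the parent of `y`
        have hv' : Valid G r (Function.update par y x) := by
          refine ⟨by rw [Function.update_of_ne hyr.symm]; exact hv.1, ?_⟩
          intro v hvr
          by_cases hvy : v = y
          · subst hvy
            rw [Function.update_self]
            exact ⟨hx1, hx2⟩
          · rw [Function.update_of_ne hvy]
            exact hv.2 v hvr
        have hpy := hv.2 y hyr
        have hpw : par y ≠ w := by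
          intro h
          have h5 := hcc _ hv' y (by rw [← h]; exact hpy.1) (by rw [← h]; exact hpy.2)
          rw [Function.update_self] at h5
          exact hx3 (by rw [h, h5])
        have hmem : par y ∈ VM G r (Function.update par y x) := by
          rw [mem_VM hv']
          refine ⟨y, vert_NT hv' hpy.1 hpy.2 ?_⟩
          rw [Function.update_self]
          exact fun h => hx3 h.symm
        have h4 := hmin _ hv' (par y) (Finset.mem_insert_of_mem
          (Finset.mem_erase.mpr ⟨hpw, hmem⟩)) (Anc.le hc hv hwp)
        rcases Anc.level hv hx5 with h | h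
        · rw [← h] at h4
          omega
        · omega
  · push Not at hw'
    obtain ⟨par, hv⟩ := exists_valid hc r
    apply hno' par hv
    refine optionBC hc hv hdeg (hmat par hv) (u := w) ?_ ⟨q3, h3, hlow⟩ (hcc par hv) ?_
    · obtain ⟨q, hq, -⟩ := hwM par hv
      exact (mem_VM hv).2 ⟨q, hq⟩
    · intro b hb hl
      exact absurd hl (hw' b hb)

end Count

/-- if `G - w` is connected and `w` has two neighbours, then two neighbours of `w` are not farther
from some vertex `r ≠ w` than `w` -/
theorem exists_root (hc : G.Connected) {w a b : V}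
    (hcw : (G.induce ({w}ᶜ : Set V)).Connected) (ha : G.Adj w a) (hb : G.Adj w b) (hab : a ≠ b) :
    ∃ r q1 q2, w ≠ r ∧ G.Adj w q1 ∧ G.Adj w q2 ∧ q1 ≠ q2 ∧ G.dist r q1 ≤ G.dist r w ∧
      G.dist r q2 ≤ G.dist r w := by
  classical
  by_contra hcon
  have huniq : ∀ r q1 q2, w ≠ r → G.Adj w q1 → G.Adj w q2 → G.dist r q1 ≤ G.dist r w →
      G.dist r q2 ≤ G.dist r w → q1 = q2 := by
    intro r q1 q2 h1 h2 h3 h4 h5
    by_contra h6
    exact hcon ⟨r, q1, q2, h1, h2, h3, h6, h4, h5⟩
  have hgate : ∀ v, ∃ g, v ≠ w → G.Adj w g ∧ G.dist v g + 1 = G.dist v w := by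
    intro v
    by_cases h : v = w
    · exact ⟨v, fun h' => absurd h h'⟩
    · obtain ⟨g, h1, h2⟩ := exists_prev hc h
      exact ⟨g, fun _ => ⟨h1.symm, h2⟩⟩
  choose gate hg using hgate
  have hstep : ∀ x y, x ≠ w → y ≠ w → G.Adj x y → gate x ≠ gate y →
      G.dist x w < G.dist y w := by
    intro x y hx hy hxy hne
    have h1 := hg x hx
    have h2 := hg y hy
    have h3 : G.dist x w < G.dist x (gate y) := by
      by_contra h
      exact hne (huniq x (gate x) (gate y) hx.symm h1.1 h2.1 (by omega) (by omega))
    have h4 := hc.dist_triangle (u := x) (v := y) (w := gate y)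
    have h5 : G.dist x y = 1 := SimpleGraph.dist_eq_one_iff_adj.mpr hxy
    omega
  have hadj : ∀ x y, x ≠ w → y ≠ w → G.Adj x y → gate x = gate y := by
    intro x y hx hy hxy
    by_contra hne
    have h1 := hstep x y hx hy hxy hne
    have h2 := hstep y x hy hx hxy.symm (Ne.symm hne)
    omega
  have hwalk : ∀ x y : ({w}ᶜ : Set V), (G.induce ({w}ᶜ : Set V)).Walk x y →
      gate x = gate y := by
    intro x y p
    induction p with
    | nil => rfl
    | @cons u v t h q ih => rw [hadj u v u.2 v.2 h, ih]
  have hself : ∀ q, G.Adj w q → gate q = q := by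
    intro q hq
    have h1 := hg q hq.ne.symm
    have h2 : G.dist q w = 1 := SimpleGraph.dist_eq_one_iff_adj.mpr hq.symm
    have h3 : G.dist q (gate q) = 0 := by omega
    exact (hc.dist_eq_zero_iff.mp h3).symm
  obtain ⟨p⟩ := hcw.preconnected ⟨a, ha.ne.symm⟩ ⟨b, hb.ne.symm⟩
  have := hwalk _ _ p
  simp only [hself a ha, hself b hb] at this
  exact hab this

end Tree

/-- a connected 2-regular graph is a cycle -/
theorem cycle_iso {V : Type} [Fintype V] [DecidableEq V] {G : SimpleGraph V} [DecidableRel G.Adj]
    (hc : G.Connected) (h2 : ∀ v, G.degree v = 2) :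
    ∃ n, 3 ≤ n ∧ Nonempty (G ≃g cycleGraph n) := by
  classical
  have hcyc : G.IsCycles := by
    intro v _
    rw [Set.ncard_eq_toFinset_card']
    have := h2 v
    rw [← G.card_neighborFinset_eq_degree] at this
    exact this
  obtain ⟨v0⟩ := hc.nonempty
  have hne : (G.neighborSet v0).Nonempty := by
    have h : 0 < G.degree v0 := by rw [h2]; norm_num
    obtain ⟨w, hw⟩ := (G.degree_pos_iff_exists_adj v0).mp h
    exact ⟨w, hw⟩
  obtain ⟨p, hp, hverts⟩ := hcyc.exists_cycle_toSubgraph_verts_eq_connectedComponentSupp
    (v := v0) (c := G.connectedComponentMk v0) rfl hne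
  have hall : ∀ v, v ∈ p.support := by
    intro v
    have : v ∈ (G.connectedComponentMk v0).supp := by
      rw [ConnectedComponent.mem_supp_iff, ConnectedComponent.eq]
      exact hc.preconnected v v0
    rw [← hverts] at this
    simpa using this
  obtain ⟨k, hk⟩ : ∃ k, p.length = k + 3 := ⟨p.length - 3, by have := hp.three_le_length; omega⟩
  let f : Fin (k + 3) → V := fun i => p.getVert i
  have hinj : Function.Injective f := by
    intro i j hij
    have := hp.getVert_injOn' (by simp; omega) (by simp; omega) hij
    exact Fin.ext this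
  have hsurj : Function.Surjective f := by
    intro v
    obtain ⟨i, hi, hil⟩ := Walk.mem_support_iff_exists_getVert.mp (hall v)
    by_cases h : i = p.length
    · refine ⟨0, ?_⟩
      show p.getVert 0 = v
      rw [← hi, h, Walk.getVert_zero, Walk.getVert_length]
    · exact ⟨⟨i, by omega⟩, hi⟩
  have hadj : ∀ i : Fin (k + 3), G.Adj (f i) (f (i + 1)) := by
    intro i
    have h1 := p.adj_getVert_succ (i := i) (by omega)
    have h2 : f (i + 1) = p.getVert (i + 1) := by
      by_cases hi : (i : ℕ) + 1 < k + 3
      · show p.getVert ((i + 1 : Fin (k + 3)) : ℕ) = _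
        congr 1
        rw [Fin.val_add, Fin.val_one]
        exact Nat.mod_eq_of_lt hi
      · have : i = Fin.last (k + 2) := by
          ext
          simp
          omega
        subst this
        show p.getVert ((Fin.last (k + 2) + 1 : Fin (k + 3)) : ℕ) = _
        simp only [Fin.last_add_one, Fin.val_zero, Walk.getVert_zero, Fin.val_last]
        have : k + 2 + 1 = p.length := by omega
        rw [this, Walk.getVert_length]
    rw [h2]
    exact h1
  have hkey : ∀ i j : Fin (k + 3), G.Adj (f i) (f j) ↔ (j = i + 1 ∨ j = i - 1) := by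
    intro i j
    have h3 : G.Adj (f i) (f (i - 1)) := by
      have := hadj (i - 1)
      rw [sub_add_cancel] at this
      exact this.symm
    have hneq : f (i + 1) ≠ f (i - 1) := by
      intro h
      have h4 : i + 1 = i - 1 := hinj h
      have h5 : (1 : Fin (k + 3)) + 1 = 0 := by
        have : i + (1 + 1) = i + 0 := by
          rw [← add_assoc, h4]
          simp
        exact add_left_cancel this
      have h6 := congrArg Fin.val h5
      rw [Fin.val_add, Fin.val_one, Fin.val_zero, Nat.mod_eq_of_lt (by omega)] at h6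
      omega
    have h4 : G.neighborFinset (f i) = {f (i + 1), f (i - 1)} := by
      symm
      apply Finset.eq_of_subset_of_card_le
      · intro x hx
        simp only [Finset.mem_insert, Finset.mem_singleton] at hx
        rw [mem_neighborFinset]
        rcases hx with rfl | rfl
        · exact hadj i
        · exact h3
      · rw [card_neighborFinset_eq_degree, h2, Finset.card_pair hneq]
    rw [← mem_neighborFinset, h4]
    simp only [Finset.mem_insert, Finset.mem_singleton, hinj.eq_iff]
  refine ⟨k + 3, by omega, ⟨(Iso.symm ⟨Equiv.ofBijective f ⟨hinj, hsurj⟩, ?_⟩)⟩⟩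
  intro i j
  show G.Adj (f i) (f j) ↔ _
  rw [hkey, cycleGraph_adj]
  constructor
  · rintro (h | h)
    · right
      rw [h]
      simp
    · left
      rw [h]
      simp
  · rintro (h | h)
    · right
      rw [← h]
      simp
    · left
      rw [← h]
      simp

/-- **Every 2-connected graph `G` which is not a cycle satisfies `mdim G ≤ 2 c(G)`**, where
`c(G) = |E| - |V| + 1`.  (Also, `mdim G` is the size of some mixed resolving set.) -/
theorem result :
    ∀ (V : Type) [Fintype V] [DecidableEq V] (G : SimpleGraph V) [DecidableRel G.Adj],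
      3 ≤ Fintype.card V → G.Connected → (∀ v, (G.induce ({v}ᶜ : Set V)).Connected) →
      (¬ ∃ n, 3 ≤ n ∧ Nonempty (G ≃g cycleGraph n)) →
      (∃ S : Finset V, MixedResolving G S ∧ S.card = mdim G) ∧
        (mdim G : ℤ) ≤ 2 * ((G.edgeFinset.card : ℤ) - Fintype.card V + 1) := by
  intro V _ _ G _ h3 hc h2c hcyc
  classical
  -- minimum degree at least two
  have hdeg : ∀ v, ∃ a b, a ≠ b ∧ G.Adj v a ∧ G.Adj v b := by
    intro v
    have : Nontrivial V := Fintype.one_lt_card_iff_nontrivial.mp (by omega)
    obtain ⟨a, ha⟩ := hc.preconnected.exists_adj_of_nontrivial v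
    by_contra hcon
    have hall : ∀ b, G.Adj v b → b = a := by
      intro b hb
      by_contra hba
      exact hcon ⟨a, b, Ne.symm hba, ha, hb⟩
    -- a third vertex
    obtain ⟨x, hx⟩ : ∃ x, x ∉ ({v, a} : Finset V) := by
      by_contra hx
      push Not at hx
      have h4 : Finset.univ ⊆ ({v, a} : Finset V) := fun x _ => hx x
      have h5 := Finset.card_le_card h4
      have h6 := Finset.card_le_two (a := v) (b := a)
      rw [Finset.card_univ] at h5
      omega
    simp only [Finset.mem_insert, Finset.mem_singleton, not_or] at hx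
    obtain ⟨p⟩ := (h2c a).preconnected ⟨v, ha.ne⟩ ⟨x, hx.2⟩
    cases p with
    | nil => exact hx.1 rfl
    | @cons _ y _ hadj q => exact y.2 (hall y hadj)
  -- a vertex of degree at least three
  obtain ⟨w, q1, q2, q3, hw1, hw2, hw3, h12, h13, h23⟩ : ∃ w q1 q2 q3, G.Adj w q1 ∧ G.Adj w q2 ∧
      G.Adj w q3 ∧ q1 ≠ q2 ∧ q1 ≠ q3 ∧ q2 ≠ q3 := by
    by_contra hcon
    apply hcyc
    apply cycle_iso hc
    intro v
    obtain ⟨a, b, hab, ha, hb⟩ := hdeg v
    rw [← G.card_neighborFinset_eq_degree]
    have : G.neighborFinset v = {a, b} := by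
      ext x
      rw [mem_neighborFinset, Finset.mem_insert, Finset.mem_singleton]
      constructor
      · intro hx
        by_contra hne
        push Not at hne
        exact hcon ⟨v, a, b, x, ha, hb, hx, hab, hne.1.symm, hne.2.symm⟩
      · rintro (rfl | rfl)
        · exact ha
        · exact hb
    rw [this, Finset.card_pair hab]
  obtain ⟨r, p1, p2, hwr, hp1, hp2, hp12, hl1, hl2⟩ := exists_root hc (h2c w) hw1 hw2 h12
  -- a third neighbour
  obtain ⟨p3, hp3, h1, h2⟩ : ∃ p3, G.Adj w p3 ∧ p1 ≠ p3 ∧ p2 ≠ p3 := by
    by_contra hcon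
    push Not at hcon
    have k1 := hcon q1 hw1
    have k2 := hcon q2 hw2
    have k3 := hcon q3 hw3
    rcases eq_or_ne p1 q1 with c1 | c1
    · subst c1
      exact h23 ((k2 h12).symm.trans (k3 h13))
    · rcases eq_or_ne p1 q2 with c2 | c2
      · subst c2
        exact h13 ((k1 c1).symm.trans (k3 h23))
      · exact h12 ((k1 c1).symm.trans (k2 c2))
  obtain ⟨S, hS, hcard⟩ := main hc hdeg hwr hp1 hp2 hp3 hp12 h1 h2 hl1 hl2
  have hne : {k | ∃ S : Finset V, MixedResolving G S ∧ S.card = k}.Nonempty := ⟨_, S, hS, rfl⟩
  refine ⟨Nat.sInf_mem hne, ?_⟩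
  have h4 : mdim G ≤ S.card := Nat.sInf_le ⟨S, hS, rfl⟩
  have h5 : (mdim G : ℤ) ≤ S.card := by exact_mod_cast h4
  have h6 : (S.card : ℤ) + 2 * Fintype.card V ≤ 2 * G.edgeFinset.card + 2 := by exact_mod_cast hcard
  linarith

end Pool.Agent.Results.MP_ca4ce9_co.TwoConnected
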